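import Pool.Agent.H.MP_73989e_co.B

namespace Pool.Agent.H.MP_ab035a_co
open Finset Pool.Agent.H.MP_73989e_co

def Deg2 {V Λ : Type} [DecidableEq V] [AddCommGroup Λ] (Φ : Finset V → Λ) : Prop :=
  ∃ A : V → V → Λ, ∀ S u v, u ≠ v → u ∉ S → v ∉ S →
    Φ (insert u (insert v S)) - Φ (insert v S) = Φ (insert u S) - Φ S + A u v

lemma q0 (Λ : Type) [AddCommGroup Λ] [Fintype Λ] : ∃ N, ∀ (V : Type) [DecidableEq V]
    (Φ : Finset V → Λ), Deg2 Φ → ∀ S U : Finset V, Disjoint S U → N ≤ U.card →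
      ∃ J ⊆ U, J.Nonempty ∧ Φ (S ∪ J) = Φ S := by
  classical
  obtain ⟨k, hk⟩ : ∃ k, k = Fintype.card Λ := ⟨_, rfl⟩
  have k0 : 0 < k := hk ▸ Fintype.card_pos
  obtain ⟨N, hN⟩ := pre Λ (k * k * (2 * k))
  refine ⟨N, fun V _ Φ ⟨A, hA⟩ S U hd hU => ?_⟩
  obtain ⟨T, hT, hc, κ, hκ⟩ := hN V U (Sym2.lift ⟨fun u v => Φ (insert u (insert v S)) -
    Φ (insert v S) - Φ (insert u S) + Φ S, fun u v => by dsimp only; rw [insert_comm]; abel⟩) hU
  obtain ⟨⟨α, β⟩, -, ha⟩ := exists_le_card_fiber_of_mul_le_card_of_maps_to (s := T)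
    (t := univ) (f := fun u => (κ u, Φ (insert u S) - Φ S)) (n := 2 * k) (fun _ _ => mem_univ _)
    univ_nonempty (by rw [hc, card_univ, Fintype.card_prod, ← hk])
  obtain ⟨M, hM, hm⟩ := exists_subset_card_eq ha
  have m1 : ∀ u ∈ M, u ∈ T ∧ κ u = α ∧ Φ (insert u S) - Φ S = β := fun u hu => by
    simpa using hM hu
  have m2 : ∀ u ∈ M, u ∉ S := fun u hu => disjoint_right.1 hd (hT (m1 u hu).1)
  have m3 : ∀ u ∈ M, ∀ v ∈ M, u ≠ v → A u v = α := by
    intro u hu v hv e
    have a := hκ u (m1 u hu).1 v (m1 v hv).1 e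
    rw [Sym2.lift_mk, (m1 u hu).2.1, (m1 v hv).2.1, or_self] at a
    dsimp only at a
    rw [hA S u v e (m2 u hu) (m2 v hv)] at a
    rw [← a]; abel
  have c1 : ∀ J ⊆ M, ∀ u ∈ M, u ∉ J → Φ (insert u (S ∪ J)) - Φ (S ∪ J) = β + J.card • α := by
    intro J
    induction J using Finset.induction_on with
    | empty => intro _ u hu _; simpa using (m1 u hu).2.2
    | insert v J hv ih =>
      intro hs u hu hn
      rw [mem_insert, not_or] at hn
      have hv' := hs (mem_insert_self _ _)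
      rw [union_insert, hA _ u v hn.1 (by simp [m2 u hu, hn.2]) (by simp [m2 v hv', hv]),
        ih ((subset_insert _ _).trans hs) u hu hn.2, m3 u hu v hv' hn.1, card_insert_of_notMem hv,
        succ_nsmul, add_assoc]
  have c2 : ∀ J ⊆ M, Φ (S ∪ J) = Φ S + J.card • β + J.card.choose 2 • α := by
    intro J
    induction J using Finset.induction_on with
    | empty => simp
    | insert v J hv ih =>
      intro hs
      have hs' := (subset_insert _ _).trans hs
      rw [union_insert, sub_eq_iff_eq_add.1 (c1 J hs' v (hs (mem_insert_self _ _)) hv), ih hs',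
        card_insert_of_notMem hv, Nat.choose_succ_succ' _ 1, Nat.choose_one_right, add_nsmul,
        add_nsmul, one_nsmul]
      abel
  refine ⟨M, fun u hu => hT (m1 u hu).1, card_pos.1 (by omega), ?_⟩
  have z : ∀ (x : Λ) (j : ℕ), (k * j) • x = 0 := fun x j => by
    rw [mul_nsmul, hk, card_nsmul_eq_zero, nsmul_zero]
  rw [c2 M subset_rfl, hm, Nat.choose_two_right, mul_assoc, Nat.mul_div_cancel_left _ two_pos,
    z, mul_comm 2, z, add_zero, add_zero]

variable {Γ V X : Type} [AddCommGroup Γ] [Fintype V] [DecidableEq V]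
  (G : SimpleGraph V) [DecidableRel G.Adj] (C : Sym2 X → Γ)

/-- total colour of the image of `G` -/
def F (φ : V → X) : Γ := ∑ e ∈ G.edgeFinset, C (e.map φ)

lemma deg2F (P : Γ → V → Bool → X) :
    Deg2 fun (S : Finset V) (a : Γ) => F G C fun v => P a v (v ∈ S) := by
  let Φ := fun (S : Finset V) (a : Γ) => F G C fun v => P a v (v ∈ S)
  refine ⟨fun u v => Φ (insert u (insert v ∅)) - Φ (insert v ∅) - Φ (insert u ∅) + Φ ∅,
    fun S u v huv hu hv => ?_⟩
  funext a
  simp only [Φ, F, Pi.add_apply, Pi.sub_apply, ← sum_sub_distrib, ← sum_add_distrib]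
  refine sum_congr rfl fun e _ => ?_
  induction e using Sym2.ind with
  | _ p q =>
    simp only [Sym2.map_mk]
    by_cases a1 : p = u <;> by_cases a2 : p = v <;> by_cases a3 : q = u <;> by_cases a4 : q = v <;>
      simp_all [huv.symm]

lemma flipF (φ φ' : V → X) (v : V) (h : ∀ u, u ≠ v → φ' u = φ u) :
    F G C φ' = F G C φ + ∑ u ∈ G.neighborFinset v, (C s(φ' v, φ u) - C s(φ v, φ u)) := by
  have e1 : G.edgeFinset.filter (v ∈ ·) = (G.neighborFinset v).image fun u => s(v, u) := by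
    ext e
    simp only [mem_filter, SimpleGraph.mem_edgeFinset, mem_image, SimpleGraph.mem_neighborFinset]
    constructor
    · rintro ⟨a, b⟩
      obtain ⟨u, rfl⟩ := Sym2.mem_iff_exists.1 b
      exact ⟨u, a, rfl⟩
    · rintro ⟨u, a, rfl⟩
      exact ⟨a, by simp⟩
  rw [F, F, ← sub_eq_iff_eq_add', ← sum_sub_distrib, ← sum_filter_add_sum_filter_not _ (v ∈ ·), e1,
    sum_image fun a _ b _ e => Sym2.congr_right.1 e, sum_eq_zero (s := filter _ _), add_zero]
  · refine sum_congr rfl fun u hu => ?_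
    rw [Sym2.map_mk, Sym2.map_mk, h u (G.mem_neighborFinset _ _ |>.1 hu).ne']
  · intro e he
    rw [Sym2.map_congr (g := φ) fun u hu => h u fun e' => (mem_filter.1 he).2 (e' ▸ hu), sub_self]

lemma F_congr {φ φ' : V → X} (h : ∀ u v, G.Adj u v → C s(φ u, φ v) = C s(φ' u, φ' v)) :
    F G C φ = F G C φ' := by
  refine sum_congr rfl fun e he => ?_
  induction e using Sym2.ind with
  | _ p q => exact h p q (SimpleGraph.mem_edgeFinset.1 he)

/-- A family of placements of `T` inside `W` realising every value in `A`, the other vertices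
sitting at any point of the pool `M`. -/
structure St (T : Finset V) (W M : Finset X) (A : Finset Γ) (τ : Γ → V → X) : Prop where
  z : 0 ∈ A
  inj : ∀ a ∈ A, Set.InjOn (τ a) T
  mem : ∀ a ∈ A, ∀ v ∈ T, τ a v ∈ W
  dj : Disjoint W M
  cst : ∀ a ∈ A, ∀ v ∈ T, ∀ x ∈ M, ∀ y ∈ M, C s(x, τ a v) = C s(y, τ a v)
  val : ∀ a ∈ A, ∀ x ∈ M, F G C (fun v => if v ∈ T then τ a v else x) = a

end Pool.Agent.H.MP_ab035a_co
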