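import Pool.Agent.H.MP_ab035a_co.A

namespace Pool.Agent.H.MP_ab035a_co
open Finset Pool.Agent.H.MP_73989e_co

lemma bat (Γ : Type) [AddCommGroup Γ] [Fintype Γ] [DecidableEq Γ] (j s : ℕ) : ∃ s', s ≤ s' ∧
    ∀ (X : Type) [DecidableEq X] (C : Sym2 X → Γ) (Bad : Γ → Prop) (W M : Finset X), ¬ Bad 0 →
    (∀ x ∈ M, ∀ y ∈ M, C s(x, y) = 0) → Disjoint W M → s' ≤ M.card →
    (∃ W' M' : Finset X, W ⊆ W' ∧ W'.card ≤ W.card + 3 * j ∧ M' ⊆ M ∧ s ≤ M'.card ∧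
      Disjoint W' M' ∧ ∀ z ∉ W', ∀ x ∈ M', ∀ y ∈ M', ¬ Bad (C s(x, z) - C s(y, z))) ∨
    ∃ (H : Fin j × Fin 3 → X) (M' : Finset X), Function.Injective H ∧ (∀ q, H q ∉ W) ∧
      (∀ q, H q ∉ M') ∧ M' ⊆ M ∧ s ≤ M'.card ∧ (∀ i, H (i, 0) ∈ M ∧ H (i, 1) ∈ M ∧
        Bad (C s(H (i, 0), H (i, 2)) - C s(H (i, 1), H (i, 2)))) ∧
      (∀ i i', i < i' → C s(H (i', 0), H (i, 2)) = C s(H (i', 1), H (i, 2))) ∧
      ∀ i, ∀ x ∈ M', ∀ y ∈ M', C s(x, H (i, 2)) = C s(y, H (i, 2)) := by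
  induction j with
  | zero => exact ⟨s, le_rfl, fun X _ C Bad W M _ _ _ h => Or.inr ⟨fun q => q.1.elim0, M,
      fun q => q.1.elim0, fun q => q.1.elim0, fun q => q.1.elim0, subset_rfl, h,
      fun i => i.elim0, fun i => i.elim0, fun i => i.elim0⟩⟩
  | succ j ih =>
    obtain ⟨t, ht, ih⟩ := ih
    have k0 : 0 < Fintype.card Γ := Fintype.card_pos
    refine ⟨Fintype.card Γ * t + 3, by nlinarith, fun X _ C Bad W M b0 h0 hd hM => ?_⟩
    by_cases hb : ∀ z ∉ W, ∀ x ∈ M, ∀ y ∈ M, ¬ Bad (C s(x, z) - C s(y, z))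
    · exact Or.inl ⟨W, M, subset_rfl, by omega, subset_rfl, by nlinarith, hd, hb⟩
    push Not at hb
    obtain ⟨z, hz, x, hx, y, hy, hb⟩ := hb
    have c3 : ({x, y, z} : Finset X).card ≤ 3 := card_le_three
    obtain ⟨a, -, ha⟩ := exists_le_card_fiber_of_mul_le_card_of_maps_to (s := M \ {x, y, z})
      (t := univ) (f := fun u => C s(u, z)) (n := t) (fun _ _ => mem_univ _) univ_nonempty
      (by have := le_card_sdiff {x, y, z} M; rw [card_univ]; omega)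
    generalize hM1 : (M \ {x, y, z}).filter (fun u => C s(u, z) = a) = M1 at ha
    have m1 : ∀ u ∈ M1, u ∈ M ∧ u ∉ ({x, y, z} : Finset X) ∧ C s(u, z) = a := fun u hu => by
      rw [← hM1, mem_filter, mem_sdiff] at hu; tauto
    have cu := card_union_le W {x, y, z}
    rcases ih X C Bad (W ∪ {x, y, z}) M1 b0 (fun u hu v hv => h0 u (m1 u hu).1 v (m1 v hv).1)
      (disjoint_right.2 fun u hu h => (mem_union.1 h).elim (disjoint_right.1 hd (m1 u hu).1)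
        (m1 u hu).2.1) ha with ⟨W', M', p1, p2, p3, p4, p5, p6⟩ |
        ⟨H, M', p1, p2, p3, p4, p5, p6, p7, p8⟩
    · exact Or.inl ⟨W', M', subset_union_left.trans p1, by omega,
        fun u hu => (m1 u (p3 hu)).1, p4, p5, p6⟩
    have zM : z ∉ M := fun h => b0 (by rwa [h0 x hx z h, h0 y hy z h, sub_zero] at hb)
    have xy : x ≠ y := by rintro rfl; exact b0 (by rwa [sub_self] at hb)
    have hi : Function.Injective ![x, y, z] := by
      intro s t e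
      fin_cases s <;> fin_cases t <;> simp at e ⊢ <;> grind
    have hm : ∀ s, ![x, y, z] s ∈ ({x, y, z} : Finset X) := fun s => by fin_cases s <;> simp
    refine Or.inr ⟨fun q => Fin.cases (![x, y, z] q.2) (fun i => H (i, q.2)) q.1, M', ?_, ?_, ?_,
      fun u hu => (m1 u (p4 hu)).1, p5, fun i => ?_, fun i i' => ?_, fun i => ?_⟩
    · rintro ⟨i, j⟩ ⟨i', j'⟩
      refine Fin.cases ?_ (fun i => ?_) i <;> refine Fin.cases ?_ (fun i' => ?_) i' <;>
        simp only [Fin.cases_zero, Fin.cases_succ] <;> intro e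
      · rw [hi e]
      · exact absurd (mem_union_right _ (e ▸ hm j)) (p2 _)
      · exact absurd (mem_union_right _ (e ▸ hm j')) (p2 _)
      · obtain ⟨rfl, rfl⟩ := Prod.mk.inj (p1 e); rfl
    · rintro ⟨i, s⟩
      refine Fin.cases ?_ (fun i h => p2 (i, s) (mem_union_left _ h)) i
      fin_cases s
      exacts [disjoint_right.1 hd hx, disjoint_right.1 hd hy, hz]
    · rintro ⟨i, s⟩
      exact Fin.cases (fun h => (m1 _ (p4 h)).2.1 (hm s)) (fun i => p3 (i, s)) i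
    · exact Fin.cases ⟨hx, hy, hb⟩ (fun i => ⟨(m1 _ (p6 i).1).1, (m1 _ (p6 i).2.1).1, (p6 i).2.2⟩) i
    · refine Fin.cases (fun h => absurd h (by simp)) (fun i' => ?_) i'
      exact Fin.cases (fun _ => (m1 _ (p6 i').1).2.2.trans (m1 _ (p6 i').2.1).2.2.symm)
        (fun i h => p7 i i' (by simpa using h)) i
    · exact Fin.cases (fun u hu v hv => (m1 _ (p4 hu)).2.2.trans (m1 _ (p4 hv)).2.2.symm)
        (fun i => p8 i) i

variable {Γ V X : Type} [AddCommGroup Γ] [DecidableEq Γ] [Fintype V] [DecidableEq V]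
  [Fintype X] [DecidableEq X] {G : SimpleGraph V} [DecidableRel G.Adj] {C : Sym2 X → Γ} {N : ℕ}
  {T : Finset V} {W M : Finset X} {A : Finset Γ} {τ : Γ → V → X}

def Q0 (Γ V : Type) [AddCommGroup Γ] [DecidableEq V] (N : ℕ) : Prop :=
  ∀ Φ : Finset V → Γ → Γ, Deg2 Φ → ∀ S U : Finset V, Disjoint S U → N ≤ U.card →
    ∃ J ⊆ U, J.Nonempty ∧ Φ (S ∪ J) = Φ S

lemma fin (hq : Q0 Γ V N) (s : St G C T W M A τ) (h0 : ∀ x ∈ M, ∀ y ∈ M, C s(x, y) = 0)
    (hM : N + 1 ≤ M.card) (B : Finset X) (hB : Fintype.card V ≤ B.card) (dW : Disjoint W B)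
    (dM : Disjoint M B) (h : (∀ u v, G.Adj u v → u ∈ T ∨ v ∈ T) ∨
      ∀ z ∈ B, ∀ x ∈ M, ∀ y ∈ M, ∀ a ∈ A, a + (C s(x, z) - C s(y, z)) ∈ A) :
    ∃ φ : V → X, Function.Injective φ ∧ F G C φ = 0 := by
  classical
  obtain ⟨x0, hx0⟩ : M.Nonempty := card_pos.1 (by omega)
  have : Nonempty X := ⟨x0⟩
  obtain ⟨ψ, ψ1, ψ2⟩ := injOn_ex univ B hB
  let P : Γ → V → Bool → X := fun a v b => if v ∈ T then τ a v else if b then ψ v else x0
  let Φ := fun (S : Finset V) (a : Γ) => F G C fun v => P a v (v ∈ S)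
  obtain ⟨S, hS, hm⟩ := exists_max_image (univ.filter fun S : Finset V => Φ S = Φ ∅) card
    ⟨∅, by simp⟩
  have hS := (mem_filter.1 hS).2
  have hc : Sᶜ.card ≤ M.card := by
    by_contra hc
    obtain ⟨J, a, ⟨v, hv⟩, b⟩ := hq Φ (deg2F G C P) S Sᶜ disjoint_compl_right (by omega)
    exact absurd (hm _ (mem_filter.2 ⟨mem_univ _, b.trans hS⟩)) (not_le.2 (card_lt_card
      ⟨subset_union_left, fun h => mem_compl.1 (a hv) (h (mem_union_right _ hv))⟩))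
  obtain ⟨ρ, ρ1, ρ2⟩ := injOn_ex Sᶜ M hc
  let φ : Γ → V → X := fun a v => if v ∈ T then τ a v else if v ∈ S then ψ v else ρ v
  have k : ∀ v, (v ∈ T ∧ ∀ a, φ a v = τ a v ∧ P a v (v ∈ S) = τ a v) ∨
      (v ∉ T ∧ ∀ a, φ a v = ψ v ∧ P a v (v ∈ S) = ψ v) ∨
      (v ∉ T ∧ v ∈ Sᶜ ∧ ∀ a, φ a v = ρ v ∧ P a v (v ∈ S) = x0) := by
    intro v
    by_cases a : v ∈ T <;> by_cases b : v ∈ S <;> simp [φ, P, a, b]
  let θ : Sym2 V → Γ := fun e => C (e.map fun v => P 0 v (v ∈ S)) - C (e.map (φ 0))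
  have kk : ∀ e ∈ G.edgeFinset, (∀ a ∈ A, C (e.map fun v => P a v (v ∈ S)) - C (e.map (φ a)) = θ e)
      ∧ ∀ a ∈ A, a + θ e ∈ A := by
    intro e he
    induction e using Sym2.ind with
    | _ u v =>
    have ad : G.Adj u v := SimpleGraph.mem_edgeFinset.1 he
    have z : (∀ a ∈ A, C s(P a u (u ∈ S), P a v (v ∈ S)) = C s(φ a u, φ a v)) →
        (∀ a ∈ A, C s(P a u (u ∈ S), P a v (v ∈ S)) - C s(φ a u, φ a v) = θ s(u, v)) ∧
        ∀ a ∈ A, a + θ s(u, v) ∈ A := fun h => by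
      simp only [θ, Sym2.map_mk, h 0 s.z, sub_self, add_zero]
      exact ⟨fun a ha => by rw [h a ha, sub_self], fun a ha => ha⟩
    simp only [Sym2.map_mk]
    rcases k u with a | a | a <;> rcases k v with b | b | b
    · exact z fun c _ => by rw [(a.2 c).1, (a.2 c).2, (b.2 c).1, (b.2 c).2]
    · exact z fun c _ => by rw [(a.2 c).1, (a.2 c).2, (b.2 c).1, (b.2 c).2]
    · exact z fun c hc => by
        rw [(a.2 c).1, (a.2 c).2, (b.2.2 c).1, (b.2.2 c).2, Sym2.eq_swap, Sym2.eq_swap (a := τ c u)]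
        exact s.cst c hc u a.1 _ hx0 _ (ρ1 v b.2.1)
    · exact z fun c _ => by rw [(a.2 c).1, (a.2 c).2, (b.2 c).1, (b.2 c).2]
    · exact z fun c _ => by rw [(a.2 c).1, (a.2 c).2, (b.2 c).1, (b.2 c).2]
    · simp only [θ, Sym2.map_mk, a.2, b.2.2, implies_true, true_and]
      rw [Sym2.eq_swap, Sym2.eq_swap (a := ψ u)]
      exact (h.resolve_left fun h => (h u v ad).elim a.1 b.1) _ (ψ1 u (mem_univ _)) _ hx0 _
        (ρ1 v b.2.1)
    · exact z fun c hc => by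
        rw [(a.2.2 c).1, (a.2.2 c).2, (b.2 c).1, (b.2 c).2]
        exact s.cst c hc v b.1 _ hx0 _ (ρ1 u a.2.1)
    · simp only [θ, Sym2.map_mk, a.2.2, b.2, implies_true, true_and]
      exact (h.resolve_left fun h => (h u v ad).elim a.1 b.1) _ (ψ1 v (mem_univ _)) _ hx0 _
        (ρ1 u a.2.1)
    · exact z fun c _ => by
        rw [(a.2.2 c).1, (a.2.2 c).2, (b.2.2 c).1, (b.2.2 c).2, h0 _ hx0 _ hx0,
          h0 _ (ρ1 u a.2.1) _ (ρ1 v b.2.1)]
  have ha : ∑ e ∈ G.edgeFinset, θ e ∈ A := by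
    have := sum_induction θ (fun x => ∀ a ∈ A, a + x ∈ A) (s := G.edgeFinset)
      (fun x y p q a ha => by rw [← add_assoc]; exact q _ (p a ha)) (by simp)
      (fun e he => (kk e he).2) 0 s.z
    rwa [zero_add] at this
  refine ⟨φ (∑ e ∈ G.edgeFinset, θ e), fun u v e => ?_, ?_⟩
  · have t := s.mem _ ha
    have d := s.dj
    rw [disjoint_left] at d dW dM
    rcases k u with a | a | a <;> rcases k v with b | b | b
    · exact s.inj _ ha a.1 b.1 (by rw [← (a.2 _).1, ← (b.2 _).1, e])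
    · exact absurd (ψ1 v (mem_univ _)) (dW (by rw [← (b.2 _).1, ← e, (a.2 _).1]; exact t u a.1))
    · exact absurd (ρ1 v b.2.1) (d (by rw [← (b.2.2 _).1, ← e, (a.2 _).1]; exact t u a.1))
    · exact absurd (ψ1 u (mem_univ _)) (dW (by rw [← (a.2 _).1, e, (b.2 _).1]; exact t v b.1))
    · exact ψ2 (mem_univ u) (mem_univ v) (by rw [← (a.2 _).1, ← (b.2 _).1, e])
    · exact absurd (ψ1 u (mem_univ _)) (dM (by rw [← (a.2 _).1, e, (b.2.2 _).1]; exact ρ1 v b.2.1))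
    · exact absurd (ρ1 u a.2.1) (d (by rw [← (a.2.2 _).1, e, (b.2 _).1]; exact t v b.1))
    · exact absurd (ψ1 v (mem_univ _)) (dM (by rw [← (b.2 _).1, ← e, (a.2.2 _).1]; exact ρ1 u a.2.1))
    · exact ρ2 a.2.1 b.2.1 (by rw [← (a.2.2 _).1, ← (b.2.2 _).1, e])
  · have e1 := congrFun hS (∑ e ∈ G.edgeFinset, θ e)
    have e2 : Φ ∅ (∑ e ∈ G.edgeFinset, θ e) = ∑ e ∈ G.edgeFinset, θ e := by
      simpa only [Φ, P, notMem_empty, decide_false, Bool.false_eq_true, if_false] using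
        s.val _ ha x0 hx0
    have e3 := sum_congr rfl fun e he => (kk e he).1 _ ha
    rw [sum_sub_distrib] at e3
    exact sub_eq_self.1 ((congrArg (· - _) (e1.trans e2)).symm.trans e3)

end Pool.Agent.H.MP_ab035a_co
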