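import Pool.Agent.H.MP_ab035a_co.B

namespace Pool.Agent.H.MP_ab035a_co
open Finset Pool.Agent.H.MP_73989e_co

variable {Γ V X : Type} [AddCommGroup Γ] [DecidableEq Γ] [Fintype V] [DecidableEq V]
  [Fintype X] [DecidableEq X] {G : SimpleGraph V} [DecidableRel G.Adj] {C : Sym2 X → Γ} {N : ℕ}
  {T : Finset V} {W M : Finset X} {A : Finset Γ} {τ : Γ → V → X}

lemma F_pool (h0 : ∀ x ∈ M, ∀ y ∈ M, C s(x, y) = 0) {φ φ' : V → X} (T : Finset V)
    (hT : ∀ v ∈ T, φ' v = φ v) (hc : ∀ v ∈ T, ∀ x ∈ M, ∀ y ∈ M, C s(x, φ v) = C s(y, φ v))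
    (h1 : ∀ v ∉ T, φ v ∈ M) (h2 : ∀ v ∉ T, φ' v ∈ M) : F G C φ' = F G C φ := by
  refine F_congr G C fun u v _ => ?_
  by_cases a : u ∈ T <;> by_cases b : v ∈ T
  · rw [hT u a, hT v b]
  · rw [hT u a, Sym2.eq_swap, Sym2.eq_swap (a := φ u)]
    exact hc u a _ (h2 v b) _ (h1 v b)
  · rw [hT v b]
    exact hc v b _ (h2 u a) _ (h1 u a)
  · rw [h0 _ (h2 u a) _ (h2 v b), h0 _ (h1 u a) _ (h1 v b)]

lemma stp (hq : Q0 Γ V N) (s : St G C T W M A τ) (h0 : ∀ x ∈ M, ∀ y ∈ M, C s(x, y) = 0)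
    (H : Fin N × Fin 3 → X) (M' : Finset X) (p1 : Function.Injective H) (p2 : ∀ q, H q ∉ W)
    (p3 : ∀ q, H q ∉ M') (p4 : M' ⊆ M) (p5 : M'.Nonempty) (p6 : ∀ i, H (i, 0) ∈ M ∧ H (i, 1) ∈ M ∧
      ¬ ∀ a ∈ A, a + (C s(H (i, 0), H (i, 2)) - C s(H (i, 1), H (i, 2))) ∈ A)
    (p7 : ∀ i i', i < i' → C s(H (i', 0), H (i, 2)) = C s(H (i', 1), H (i, 2)))
    (p8 : ∀ i, ∀ x ∈ M', ∀ y ∈ M', C s(x, H (i, 2)) = C s(y, H (i, 2)))
    (g : Fin N × Fin 2 → V) (g1 : Function.Injective g)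
    (g2 : ∀ i, G.Adj (g (i, 0)) (g (i, 1)) ∧ g (i, 0) ∉ T ∧ g (i, 1) ∉ T) :
    ∃ T' W' A' τ', St G C T' W' M' A' τ' ∧ T'.card ≤ T.card + 2 * N ∧ W'.card ≤ W.card + 3 * N ∧
      A.card < A'.card := by
  obtain ⟨x0, hx0⟩ := p5
  have gT : ∀ q, g q ∉ T := by
    rintro ⟨i, j⟩
    fin_cases j
    exacts [(g2 i).2.1, (g2 i).2.2]
  obtain ⟨P, hP⟩ : ∃ P : (Fin N → Fin 3) → Γ → V → Bool → X, ∀ c a v b, P c a v b =
      if v ∈ T then τ a v else Function.extend g (fun q => if q.2 = 0 then H (q.1, c q.1) else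
        if b then H (q.1, 2) else x0) (fun _ => x0) v := ⟨_, fun _ _ _ _ => rfl⟩
  have k : ∀ v, (v ∈ T ∧ ∀ c a b, P c a v b = τ a v) ∨ (v ∉ T ∧ ((∃ i, v = g (i, 0) ∧
      ∀ c a b, P c a v b = H (i, c i)) ∨ (∃ i, v = g (i, 1) ∧ ∀ c a, P c a v true = H (i, 2) ∧
      P c a v false = x0) ∨ ((∀ q, g q ≠ v) ∧ ∀ c a b, P c a v b = x0))) := by
    intro v
    by_cases a : v ∈ T
    · exact Or.inl ⟨a, fun _ _ _ => by rw [hP, if_pos a]⟩
    refine Or.inr ⟨a, ?_⟩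
    by_cases b : ∃ q, g q = v
    · obtain ⟨⟨i, j⟩, rfl⟩ := b
      fin_cases j
      · exact Or.inl ⟨i, rfl, fun _ _ _ => by simp [hP, gT, g1.extend_apply]⟩
      · exact Or.inr (Or.inl ⟨i, rfl, fun _ _ => by simp [hP, gT, g1.extend_apply]⟩)
    · exact Or.inr (Or.inr ⟨fun q e => b ⟨q, e⟩, fun _ _ _ => by
        simp only [hP, if_neg a, Function.extend_apply' _ _ _ b]⟩)
  obtain ⟨J, j1, j2, j3⟩ := hq _ (deg2F G C (P fun _ => 1)) ∅ (univ.image fun i => g (i, 1))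
    (disjoint_empty_left _) (by rw [card_image_of_injective _ fun i j e => (Prod.mk.inj (g1 e)).1]; simp)
  rw [empty_union] at j3
  have v0 : ∀ a ∈ A, F G C (fun v => P (fun _ => 1) a v (v ∈ J)) = a := by
    intro a ha
    refine (congrFun j3 a).trans (Eq.trans (F_pool h0 T (fun v hv => by simp [hP, hv])
      (fun v hv => by simpa [hv] using s.cst a ha v hv) (fun v hv => by simp [hv, p4 hx0])
      fun v hv => ?_) (s.val a ha x0 (p4 hx0)))
    rcases k v with b | ⟨-, ⟨i, -, b⟩ | ⟨i, -, b⟩ | b⟩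
    · exact absurd b.1 hv
    · rw [b]; exact (p6 i).2.1
    · simp [(b _ _).2, p4 hx0]
    · rw [b.2]; exact p4 hx0
  obtain ⟨m, m1, m2⟩ := exists_max_image (univ.filter fun i => g (i, 1) ∈ J) id (by
    obtain ⟨v, hv⟩ := j2
    obtain ⟨i, -, rfl⟩ := mem_image.1 (j1 hv)
    exact ⟨i, mem_filter.2 ⟨mem_univ _, hv⟩⟩)
  have m1 := (mem_filter.1 m1).2
  generalize hh : C s(H (m, 0), H (m, 2)) - C s(H (m, 1), H (m, 2)) = h
  have v1 : ∀ a ∈ A, F G C (fun v => P (fun i => if i = m then 0 else 1) a v (v ∈ J)) = a + h := by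
    intro a ha
    rw [flipF G C (fun v => P (fun _ => 1) a v (v ∈ J)) _ (g (m, 0)) fun u hu => ?_, v0 a ha,
      sum_eq_single_of_mem (g (m, 1)) ((G.mem_neighborFinset _ _).2 (g2 m).1) fun u _ hu => ?_]
    · simp [hP, gT, g1.extend_apply, m1, hh]
    · have e : P (fun i => if i = m then 0 else 1) a (g (m, 0)) (g (m, 0) ∈ J) = H (m, 0) ∧
        P (fun _ => 1) a (g (m, 0)) (g (m, 0) ∈ J) = H (m, 1) := by simp [hP, gT, g1.extend_apply]
      rw [e.1, e.2, sub_eq_zero]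
      have z : ∀ x ∈ M, C s(H (m, 0), x) = C s(H (m, 1), x) := fun x hx => by
        rw [h0 _ (p6 m).1 _ hx, h0 _ (p6 m).2.1 _ hx]
      rcases k u with b | ⟨-, ⟨i, -, b⟩ | ⟨i, rfl, b⟩ | b⟩
      · rw [b.2]; exact s.cst a ha u b.1 _ (p6 m).1 _ (p6 m).2.1
      · rw [b]; exact z _ (p6 i).2.1
      · by_cases c : g (i, 1) ∈ J
        · rw [decide_eq_true c, (b _ _).1]
          exact p7 i m (lt_of_le_of_ne (m2 i (mem_filter.2 ⟨mem_univ _, c⟩)) fun e => hu (e ▸ rfl))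
        · rw [decide_eq_false c, (b _ _).2]; exact z _ (p4 hx0)
      · rw [b.2]; exact z _ (p4 hx0)
    · rcases k u with b | ⟨-, ⟨i, rfl, b⟩ | ⟨i, -, b⟩ | b⟩
      · rw [b.2, b.2]
      · rw [b, b, if_neg fun e : i = m => hu (e ▸ rfl)]
      · cases decide (u ∈ J)
        · rw [(b _ _).2, (b _ _).2]
        · rw [(b _ _).1, (b _ _).1]
      · rw [b.2, b.2]
  have ex : ∀ a ∈ A ∪ A.image (· + h), ∃ b c, b ∈ A ∧ (∀ i, c i ≠ 2 ∧ H (i, c i) ∈ M) ∧
      F G C (fun v => P c b v (v ∈ J)) = a := by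
    intro a ha
    rcases mem_union.1 ha with ha | ha
    · exact ⟨a, _, ha, fun i => ⟨by simp, (p6 i).2.1⟩, v0 a ha⟩
    · obtain ⟨b, hb, rfl⟩ := mem_image.1 ha
      refine ⟨b, _, hb, fun i => ?_, v1 b hb⟩
      split_ifs
      exacts [⟨by simp, (p6 i).1⟩, ⟨by simp, (p6 i).2.1⟩]
  choose! b c e1 e2 e3 using ex
  let T' := T ∪ univ.image fun i => g (i, 0)
  have kk : ∀ v ∈ T' ∪ J, (v ∈ T ∧ ∀ c a, P c a v (v ∈ J) = τ a v) ∨ (∃ i, v = g (i, 0) ∧
      ∀ c a, P c a v (v ∈ J) = H (i, c i)) ∨ ∃ i, v = g (i, 1) ∧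
      ∀ c a, P c a v (v ∈ J) = H (i, 2) := by
    intro v hv
    rcases k v with a | ⟨t, ⟨i, a, a'⟩ | ⟨i, rfl, a⟩ | a⟩
    · exact Or.inl ⟨a.1, fun _ _ => a.2 _ _ _⟩
    · exact Or.inr (Or.inl ⟨i, a, fun _ _ => a' _ _ _⟩)
    · have : g (i, 1) ∈ J := by simpa [T', t, g1.eq_iff] using hv
      exact Or.inr (Or.inr ⟨i, rfl, fun _ _ => by rw [decide_eq_true this, (a _ _).1]⟩)
    · have : v ∈ J := by simpa [T', t, a.1] using hv
      obtain ⟨i, -, e⟩ := mem_image.1 (j1 this)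
      exact absurd e (a.1 _)
  have cs : ∀ a ∈ A ∪ A.image (· + h), ∀ v ∈ T' ∪ J, ∀ x ∈ M', ∀ y ∈ M',
      C s(x, P (c a) (b a) v (v ∈ J)) = C s(y, P (c a) (b a) v (v ∈ J)) := by
    intro a ha v hv x hx y hy
    rcases kk v hv with t | ⟨i, -, t⟩ | ⟨i, -, t⟩
    · rw [t.2]; exact s.cst _ (e1 a ha) v t.1 _ (p4 hx) _ (p4 hy)
    · rw [t, h0 _ (p4 hx) _ (e2 a ha i).2, h0 _ (p4 hy) _ (e2 a ha i).2]
    · rw [t]; exact p8 i x hx y hy
  refine ⟨T' ∪ J, W ∪ univ.image H, A ∪ A.image (· + h), fun a v => P (c a) (b a) v (v ∈ J),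
    ⟨mem_union_left _ s.z, fun a ha u hu v hv e => ?_, fun a ha v hv => ?_, ?_, cs,
      fun a ha x hx => ?_⟩, ?_, ?_, card_lt_card ⟨subset_union_left, fun hc => ?_⟩⟩
  · have w := s.mem _ (e1 a ha)
    have d := e2 a ha
    rcases kk u hu with t | ⟨i, rfl, t⟩ | ⟨i, rfl, t⟩ <;>
      rcases kk v hv with r | ⟨j, rfl, r⟩ | ⟨j, rfl, r⟩ <;> simp only [t, r] at e
    · exact s.inj _ (e1 a ha) t.1 r.1 e
    · exact absurd (e ▸ w u t.1) (p2 _)
    · exact absurd (e ▸ w u t.1) (p2 _)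
    · exact absurd (e ▸ w v r.1) (p2 _)
    · rw [(Prod.mk.inj (p1 e)).1]
    · exact absurd (Prod.mk.inj (p1 e)).2 (d i).1
    · exact absurd (e ▸ w v r.1) (p2 _)
    · exact absurd (Prod.mk.inj (p1 e)).2.symm (d j).1
    · rw [(Prod.mk.inj (p1 e)).1]
  · rcases kk v hv with t | ⟨i, -, t⟩ | ⟨i, -, t⟩
    · rw [t.2]; exact mem_union_left _ (s.mem _ (e1 a ha) v t.1)
    · rw [t]; simp
    · rw [t]; simp
  · refine disjoint_left.2 fun x hx hx' => (mem_union.1 hx).elim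
      (fun h => disjoint_left.1 s.dj h (p4 hx')) fun h => ?_
    obtain ⟨q, -, rfl⟩ := mem_image.1 h
    exact p3 q hx'
  · refine Eq.trans (F_pool (fun x a y b => h0 x (p4 a) y (p4 b)) (T' ∪ J) (fun v hv => if_pos hv)
      (cs a ha) (fun v hv => ?_) fun v hv => by rwa [if_neg hv]) (e3 a ha)
    rw [mem_union, mem_union, not_or, not_or] at hv
    rcases k v with t | ⟨-, ⟨i, rfl, t⟩ | ⟨i, -, t⟩ | t⟩
    · exact absurd t.1 hv.1.1
    · exact absurd (mem_image.2 ⟨i, mem_univ _, rfl⟩) hv.1.2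
    · rwa [decide_eq_false hv.2, (t _ _).2]
    · rwa [t.2]
  · have a1 := card_union_le T' J
    have a2 := card_union_le T (univ.image fun i => g (i, 0))
    have a3 := card_image_le (s := univ) (f := fun i => g (i, 0))
    have a4 := (card_le_card j1).trans card_image_le
    simp only [card_univ, Fintype.card_fin] at a3 a4
    simp only [T'] at a1 ⊢
    omega
  · have a2 := card_union_le W (univ.image H)
    have a3 := card_image_le (s := univ) (f := H)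
    simp only [card_univ, Fintype.card_prod, Fintype.card_fin] at a3
    omega
  · exact (p6 m).2.2 fun a ha => hh ▸ hc (mem_union_right _ (mem_image_of_mem _ ha))

lemma St.mono (s : St G C T W M A τ) {W' M' : Finset X} (h1 : W ⊆ W') (h2 : M' ⊆ M)
    (hd : Disjoint W' M') : St G C T W' M' A τ :=
  ⟨s.z, s.inj, fun a ha v hv => h1 (s.mem a ha v hv), hd,
    fun a ha v hv x hx y hy => s.cst a ha v hv x (h2 hx) y (h2 hy),
    fun a ha x hx => s.val a ha x (h2 hx)⟩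

lemma ind (Γ : Type) [AddCommGroup Γ] [Fintype Γ] [DecidableEq Γ] (N r : ℕ) : ∃ sz, ∀ (V X : Type)
    [Fintype V] [DecidableEq V] [Fintype X] [DecidableEq X] (G : SimpleGraph V)
    [DecidableRel G.Adj] (C : Sym2 X → Γ) (T : Finset V) (W M : Finset X) (A : Finset Γ)
    (τ : Γ → V → X), Q0 Γ V N → St G C T W M A τ → (∀ x ∈ M, ∀ y ∈ M, C s(x, y) = 0) →
    Fintype.card Γ < A.card + r → sz ≤ M.card →
    Fintype.card V + W.card + M.card + 3 * N * r ≤ Fintype.card X →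
    (∃ φ : V → X, Function.Injective φ ∧ F G C φ = 0) ∨ ∃ K : Finset V,
      K.card ≤ T.card + 2 * N * r ∧ ∀ u v, G.Adj u v → u ∈ K ∨ v ∈ K := by
  induction r with
  | zero => exact ⟨0, fun V X _ _ _ _ G _ C T W M A τ _ _ _ h => absurd (card_le_univ A) (by omega)⟩
  | succ r ih =>
    obtain ⟨t, ih⟩ := ih
    obtain ⟨sz, -, hb⟩ := bat Γ N (t + N + 1)
    refine ⟨sz, fun V X _ _ _ _ G _ C T W M A τ hq s h0 hA hM hX => ?_⟩
    rcases hb X C (fun h => ¬ ∀ a ∈ A, a + h ∈ A) W M (by simp) h0 s.dj hM with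
      ⟨W', M', p1, p2, p3, p4, p5, p6⟩ | ⟨H, M', p1, p2, p3, p4, p5, p6, p7, p8⟩
    · have c1 := card_union_le W' M'
      have c2 := card_le_card p3
      refine Or.inl (fin hq (s.mono p1 p3 p5) (fun x a y b => h0 x (p3 a) y (p3 b)) (by omega)
        (W' ∪ M')ᶜ (by rw [card_compl]; rw [mul_add] at hX; omega)
        (disjoint_left.2 fun x a b => mem_compl.1 b (mem_union_left _ a))
        (disjoint_left.2 fun x a b => mem_compl.1 b (mem_union_right _ a))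
        (Or.inr fun z hz x hx y hy => not_not.1 (p6 z (fun h => mem_compl.1 hz
          (mem_union_left _ h)) x hx y hy)))
    rcases pack 2 N (fun h : Fin 2 → V => G.Adj (h 0) (h 1) ∧ h 0 ∉ T ∧ h 1 ∉ T) with
      ⟨g, g1, g2⟩ | ⟨K, k1, k2⟩
    · obtain ⟨T', W', A', τ', s', a1, a2, a3⟩ := stp hq s h0 H M' p1 p2 p3 p4
        (card_pos.1 (by omega)) p6 p7 p8 g g1 g2
      have c2 := card_le_card p4
      refine (ih V X G C T' W' M' A' τ' hq s' (fun x a y b => h0 x (p4 a) y (p4 b)) (by omega)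
        (by omega) (by rw [mul_add] at hX; omega)).imp_right fun ⟨K, k1, k2⟩ => ⟨K, ?_, k2⟩
      rw [mul_add]; omega
    · refine Or.inr ⟨T ∪ K, (card_union_le _ _).trans (by rw [mul_add]; omega), fun u v a => ?_⟩
      by_contra hc
      simp only [mem_union, not_or] at hc
      obtain ⟨j, hj⟩ := k2 ![u, v] (by
        intro s t e
        fin_cases s <;> fin_cases t <;> simp_all) ⟨a, hc.1.1, hc.2.1⟩
      fin_cases j
      exacts [hc.1.2 hj, hc.2.2 hj]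

theorem main (Γ : Type) [AddCommGroup Γ] [Fintype Γ] : ∃ c : ℕ, ∀ n : ℕ,
    ∀ G : SimpleGraph (Fin n), ∀ [DecidableRel G.Adj], (∀ a : Γ, G.edgeFinset.card • a = 0) →
      ∀ f : Sym2 (Fin (n + c)) → Γ, ∃ φ : Fin n ↪ Fin (n + c),
        ∑ e ∈ G.edgeFinset, f (Sym2.map φ e) = 0 := by
  classical
  obtain ⟨N, hN⟩ := q0 (Γ → Γ)
  obtain ⟨k, hk⟩ : ∃ k, k = Fintype.card Γ := ⟨_, rfl⟩
  obtain ⟨sz, hs⟩ := ind Γ N k
  obtain ⟨R, hR⟩ := ramsey Γ (sz + 2 * N * k + N + 1)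
  refine ⟨R + (sz + 2 * N * k + N + 1) + 3 * N * k, fun n G _ hd f => ?_⟩
  obtain ⟨M, hM, a, ha⟩ := hR _ f (by simp; omega)
  generalize hC : (fun e : Sym2 (Fin _) => if e.IsDiag then 0 else f e - a) = C
  have h0 : ∀ x ∈ M, ∀ y ∈ M, C s(x, y) = 0 := fun x hx y hy => by
    by_cases e : x = y
    · simp [← hC, e]
    · simp [← hC, e, ha x hx y hy e]
  obtain ⟨x0, hx0⟩ : M.Nonempty := card_pos.1 (by omega)
  have : Nonempty (Fin (n + (R + (sz + 2 * N * k + N + 1) + 3 * N * k))) := ⟨x0⟩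
  have z : ∀ φ : Fin n → _, (∀ v, φ v ∈ M) → F G C φ = 0 := fun φ h =>
    sum_eq_zero fun e _ => by
      induction e using Sym2.ind with
      | _ u v => exact h0 _ (h u) _ (h v)
  obtain ⟨φ, i, h⟩ : ∃ φ, Function.Injective φ ∧ F G C φ = 0 := by
    rcases hs _ _ G C ∅ ∅ M {0} (fun _ _ => x0) (hN _) ⟨by simp, by simp, by simp, by simp,
      by simp, fun a ha x hx => (z _ (by simp [hx])).trans (mem_singleton.1 ha).symm⟩ h0
      (by simp [hk]) (by omega) (by simp; omega) with h | ⟨K, k1, k2⟩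
    · exact h
    rw [card_empty] at k1
    obtain ⟨M1, m1, m2⟩ := exists_subset_card_eq (s := M) (n := K.card) (by omega)
    obtain ⟨τ, τ1, τ2⟩ := injOn_ex K M1 m2.ge
    refine fin (hN _) (T := K) (W := M1) (M := M \ M1) (A := {0}) (τ := fun _ => τ)
      ⟨by simp, fun _ _ => τ2, fun _ _ => τ1, disjoint_sdiff, fun _ _ v hv x hx y hy => ?_,
        fun a ha x hx => (z _ fun v => ?_).trans (mem_singleton.1 ha).symm⟩
      (fun x a y b => h0 x (mem_sdiff.1 a).1 y (mem_sdiff.1 b).1)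
      (by rw [card_sdiff_of_subset m1]; omega) Mᶜ (by rw [card_compl]; simp; omega)
      (disjoint_compl_right.mono_left m1) (disjoint_compl_right.mono_left sdiff_subset) (Or.inl k2)
    · rw [h0 _ (mem_sdiff.1 hx).1 _ (m1 (τ1 v hv)), h0 _ (mem_sdiff.1 hy).1 _ (m1 (τ1 v hv))]
    · split_ifs with c
      exacts [m1 (τ1 v c), (mem_sdiff.1 hx).1]
  refine ⟨⟨φ, i⟩, ?_⟩
  rw [F, ← hC, sum_congr rfl (g := fun e => f (e.map φ) - a) fun e he => if_neg fun hd =>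
    G.not_isDiag_of_mem_edgeSet (SimpleGraph.mem_edgeFinset.1 he) ((Sym2.isDiag_map i).1 hd),
    sum_sub_distrib, sum_const, hd, sub_zero] at h
  exact h

end Pool.Agent.H.MP_ab035a_co
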